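import Pool.Agent.Lib.MP_defcf3_al.BRP.H88.Six

/-! The heart for [F(ζ):F] = 4, for every odd prime ℓ. -/

set_option linter.unusedSectionVars false

namespace BRP.H99

universe u

open BR7 BR7.H50 BRP.H50 BRP.H88

variable {ℓ : ℕ} [Fact ℓ.Prime] [Fact (Odd ℓ)]

theorem four : HeartStatement.{u} ℓ 4 := by
  intro F Ω _ _ _ _ _ ζ γ k Q _ sym Γ hS a b ha hb
  set B : Ωˣ → Ωˣ → Q := fun a b => ∑ i ∈ Finset.range 4, (Γ ^ i : AddMonoid.End Q) (sym a b) with hB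
  have h : BX ℓ F ζ γ k B := bx_norm hS
  have hEE := ee hS h (ksq hS (by norm_num))
  have h2c : Nat.Coprime 2 ℓ := by
    refine (Nat.Prime.coprime_iff_not_dvd Nat.prime_two).2 fun h3 => ?_
    have : Odd ℓ := Fact.out
    rcases this with ⟨m, hm⟩
    omega
  have hγ4 : ∀ x : Ω, (∀ g : Ω ≃ₐ[F] Ω, g • ζ = ζ → g x = x) → γ (γ (γ (γ x))) = x := by
    intro x hx
    exact hx _ (gamma_d hS)
  have hg2 : ∀ x : Ω, (γ ^ 2 : Ω ≃ₐ[F] Ω) x = γ (γ x) := fun x => by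
    rw [pow_two]
    rfl
  -- the subfield E is in the radical: z is a root of z^2 - T z + N with T, N in E
  have hz : ∀ z : Ωˣ, InL F ζ z → ∀ e : Ωˣ, (e : Ω) ∈ fixE F ζ (γ ^ 2) → B z e = 0 := by
    intro z hz e he
    have hz1 : ∀ g : Ω ≃ₐ[F] Ω, g • ζ = ζ → g (z : Ω) = z := fun g hg => congrArg Units.val (hz g hg)
    have hz2 := fixL hS (fixL hS hz1)
    have h4 := hγ4 z hz1
    refine h.trinomial (fixE F ζ (γ ^ 2)) (fun e he => he.1) hEE (dec2 hS) hz (i := 2) (j := 1) (m := 1) rfl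
      h2c (Nat.coprime_one_left ℓ) (Nat.coprime_one_left ℓ) (a := - ((z : Ω) + γ (γ (z : Ω))))
      (c := (z : Ω) * γ (γ (z : Ω))) ?_ ?_ ?_ ?_ e he
    · refine ⟨fun g hg => ?_, ?_⟩
      · rw [map_neg, map_add, hz1 g hg, hz2 g hg]
      · rw [hg2, map_neg, map_neg, map_add, map_add, h4, add_comm]
    · refine ⟨fun g hg => ?_, ?_⟩
      · rw [map_mul, hz1 g hg, hz2 g hg]
      · rw [hg2, map_mul, map_mul, h4, mul_comm]
    · exact mul_ne_zero z.ne_zero (by simp)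
    · ring
  have hrad : ∀ e l : Ωˣ, (e : Ω) ∈ fixE F ζ (γ ^ 2) → InL F ζ l → B e l = 0 := by
    intro e l he hl
    have heL : InL F ζ e := fun g hg => Units.ext (he.1 g hg)
    rw [h.anti heL hl, hz l hl e he, neg_zero]
  have h7 : ζ ^ ℓ = 1 := hS.prim.pow_eq_one
  have hrel := H22.rel (ℓ := ℓ) F Ω ζ (γ ^ 2) (fixE F ζ (γ ^ 2)) h7 ⟨k ^ 2, gamma_pow' hS 2⟩ (by
    right
    rw [← pow_mul]
    exact gamma_d hS) (fun e => Iff.rfl)
  have hmain := gen (ℓ := ℓ) F Ω ζ γ k 4 Q sym Γ hS (fixE F ζ (γ ^ 2)) (fun e he => he.1) hrel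
    (∑ i ∈ Finset.range 4, (Γ ^ i : AddMonoid.End Q)) (fun e l he hl => by
      have h1 := hrad e l he hl
      rw [← h1]
      exact AddMonoidHom.finsetSum_apply _ _ _) a b ha hb
  rw [← hmain]
  exact (AddMonoidHom.finsetSum_apply _ _ _).symm

end BRP.H99
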